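import Pool.Agent.W516.K3.Defs

/-! # DK-CPQ: the case of an element of rank four with different eigenvalues -/

set_option autoImplicit false
set_option linter.unusedSimpArgs false

noncomputable section

namespace W125.DK

open Module Pool.Agent.W516.K3 Polynomial

variable {T : Type} [AddCommGroup T] [Module ℝ T]

/-! ### The components of an endomorphism -/

/-- `x ↦ h x - x h` -/
def adD (h : End ℝ T) : End ℝ (End ℝ T) := LinearMap.mulLeft ℝ h - LinearMap.mulRight ℝ h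

lemma adD_apply (h x : End ℝ T) : adD h x = h * x - x * h := rfl

lemma aeval_mem (h : End ℝ T) (g : Submodule ℝ (End ℝ T))
    (hg : ∀ x ∈ g, h * x - x * h ∈ g) (q : ℝ[X]) : ∀ x ∈ g, aeval (adD h) q x ∈ g := by
  induction q using Polynomial.induction_on' with
  | add p q hp hq =>
    intro x hx
    rw [map_add, LinearMap.add_apply]
    exact g.add_mem (hp x hx) (hq x hx)
  | monomial n a =>
    intro x hx
    rw [aeval_monomial]
    change algebraMap ℝ (End ℝ (End ℝ T)) a (((adD h) ^ n) x) ∈ g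
    rw [Module.algebraMap_end_apply]
    apply g.smul_mem
    induction n with
    | zero => simpa using hx
    | succ n ih =>
      rw [pow_succ', Module.End.mul_apply, adD_apply]
      exact hg _ ih

lemma comp_exists {n : ℕ} (P : Fin n → End ℝ T) (lam : Fin n → ℝ) (h : End ℝ T)
    (hs : ∑ i, P i = 1) (hl : ∀ i, P i * h = lam i • P i) (hr : ∀ i, h * P i = lam i • P i)
    (g : Submodule ℝ (End ℝ T)) (hg : ∀ x ∈ g, h * x - x * h ∈ g) (ν : ℝ)
    (x : End ℝ T) (hx : x ∈ g) :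
    ∃ y ∈ g, h * y - y * h = ν • y ∧ ∀ i j, lam i - lam j = ν → P i * y * P j = P i * x * P j := by
  classical
  -- a polynomial in `ad h`
  have key : ∀ (q : ℝ[X]) (i j : Fin n) (x : End ℝ T), P i * (aeval (adD h) q x) * P j =
      q.eval (lam i - lam j) • (P i * x * P j) := by
    intro q
    induction q using Polynomial.induction_on' with
    | add p q hp hq =>
      intro i j x
      rw [map_add, LinearMap.add_apply, mul_add, add_mul, hp, hq, eval_add, add_smul]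
    | monomial n a =>
      intro i j x
      rw [aeval_monomial]
      change P i * (algebraMap ℝ (End ℝ (End ℝ T)) a (((adD h) ^ n) x)) * P j = _
      rw [Module.algebraMap_end_apply, mul_smul_comm, smul_mul_assoc, eval_monomial, mul_smul]
      congr 1
      induction n generalizing x with
      | zero => simp
      | succ n ih =>
        rw [pow_succ, Module.End.mul_apply, ih, adD_apply, mul_sub, sub_mul, ← mul_assoc, hl,
          mul_assoc (P i) (x * h), mul_assoc x h, hr, pow_succ, mul_smul]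
        congr 1
        rw [mul_smul_comm, mul_smul_comm, smul_mul_assoc, smul_mul_assoc, ← mul_assoc, sub_smul]
  set S : Finset ℝ := (Finset.univ : Finset (Fin n × Fin n)).image
    (fun ij => lam ij.1 - lam ij.2) with hS
  set q : ℝ[X] := ∏ s ∈ S.erase ν, (X - C s) with hq
  have hqν : q.eval ν ≠ 0 := by
    rw [hq, eval_prod, Finset.prod_ne_zero_iff]
    intro s hs'
    simp only [eval_sub, eval_X, eval_C]
    exact sub_ne_zero.mpr (Finset.ne_of_mem_erase hs').symm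
  have hq0 : ∀ i j, lam i - lam j ≠ ν → q.eval (lam i - lam j) = 0 := by
    intro i j hij
    rw [hq, eval_prod]
    apply Finset.prod_eq_zero (i := lam i - lam j)
    · rw [Finset.mem_erase]
      exact ⟨hij, Finset.mem_image.mpr ⟨(i, j), Finset.mem_univ _, rfl⟩⟩
    · simp
  refine ⟨(q.eval ν)⁻¹ • aeval (adD h) q x, g.smul_mem _ (aeval_mem h g hg q x hx), ?_, ?_⟩
  · have hsum : ∀ z : End ℝ T, z = ∑ i, ∑ j, P i * z * P j := by
      intro z
      simp only [← Finset.mul_sum, ← Finset.sum_mul, hs, one_mul, mul_one]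
    rw [← sub_eq_zero, hsum (_ - _)]
    apply Finset.sum_eq_zero
    intro i _
    apply Finset.sum_eq_zero
    intro j _
    have e1 : ∀ z : End ℝ T,
        P i * (h * z - z * h - ν • z) * P j = (lam i - lam j - ν) • (P i * z * P j) := by
      intro z
      rw [mul_sub, mul_sub, sub_mul, sub_mul, ← mul_assoc (P i) h z, hl, mul_assoc (P i) (z * h),
        mul_assoc z h, hr]
      simp only [mul_smul_comm, smul_mul_assoc, sub_smul, mul_assoc]
    rw [e1, mul_smul_comm, smul_mul_assoc, key]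
    by_cases hij : lam i - lam j = ν
    · rw [hij, sub_self, zero_smul]
    · rw [hq0 i j hij, zero_smul, smul_zero, smul_zero]
  · intro i j hij
    rw [mul_smul_comm, smul_mul_assoc, key, hij, smul_smul, inv_mul_cancel₀ hqν, one_smul]

/-! ### Basic facts -/

lemma wdg_apply (b : T →ₗ[ℝ] T →ₗ[ℝ] ℝ) (u v t : T) : wdg b u v t = b v t • u - b u t • v := by
  simp [wdg]

lemma wdg_swap (b : T →ₗ[ℝ] T →ₗ[ℝ] ℝ) (u v : T) : wdg b u v = -wdg b v u := by
  ext t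
  simp [wdg_apply]

lemma wdg_self (b : T →ₗ[ℝ] T →ₗ[ℝ] ℝ) (u : T) : wdg b u u = 0 := by
  ext t
  simp [wdg_apply]

lemma wdg_add_left (b : T →ₗ[ℝ] T →ₗ[ℝ] ℝ) (u u' v : T) :
    wdg b (u + u') v = wdg b u v + wdg b u' v := by
  ext t
  simp only [wdg_apply, map_add, LinearMap.add_apply]
  module

lemma wdg_smul_left (b : T →ₗ[ℝ] T →ₗ[ℝ] ℝ) (c : ℝ) (u v : T) :
    wdg b (c • u) v = c • wdg b u v := by
  ext t
  simp only [wdg_apply, map_smul, LinearMap.smul_apply, smul_eq_mul]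
  module

lemma wdg_smul_right (b : T →ₗ[ℝ] T →ₗ[ℝ] ℝ) (c : ℝ) (u v : T) :
    wdg b u (c • v) = c • wdg b u v := by
  ext t
  simp only [wdg_apply, map_smul, LinearMap.smul_apply, smul_eq_mul]
  module

lemma wdg_bracket (b : T →ₗ[ℝ] T →ₗ[ℝ] ℝ) (x : End ℝ T)
    (hx : ∀ u v, b (x u) v + b u (x v) = 0) (u v : T) :
    x * wdg b u v - wdg b u v * x = wdg b (x u) v + wdg b u (x v) := by
  ext t
  have h1 : b (x u) t = -b u (x t) := by linarith [hx u t]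
  have h2 : b (x v) t = -b v (x t) := by linarith [hx v t]
  simp only [LinearMap.sub_apply, Module.End.mul_apply, wdg_apply, map_sub, map_smul,
    LinearMap.add_apply, h1, h2]
  module

lemma wdg_skew (b : T →ₗ[ℝ] T →ₗ[ℝ] ℝ) (hs : ∀ u v, b u v = b v u) (u v s t : T) :
    b (wdg b u v s) t + b s (wdg b u v t) = 0 := by
  simp only [wdg_apply, map_sub, map_smul, LinearMap.sub_apply, LinearMap.smul_apply, smul_eq_mul]
  rw [hs s u, hs s v]
  ring

lemma wdg_trace [FiniteDimensional ℝ T] (b : T →ₗ[ℝ] T →ₗ[ℝ] ℝ) (hs : ∀ u v, b u v = b v u)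
    (u v : T) (x : End ℝ T) (hx : ∀ u v, b (x u) v + b u (x v) = 0) :
    LinearMap.trace ℝ T (wdg b u v * x) = -2 * b u (x v) := by
  have e : wdg b u v * x = ((b v) ∘ₗ x).smulRight u - ((b u) ∘ₗ x).smulRight v := by
    ext t
    simp [wdg_apply]
  rw [e, map_sub, LinearMap.trace_smulRight, LinearMap.trace_smulRight]
  simp only [LinearMap.comp_apply]
  have h1 := hx v u
  rw [hs (x v) u] at h1
  linarith

/-! ### Two hyperbolic planes -/

/-- all products of the basis vectors of two orthogonal hyperbolic planes -/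
structure HH (b : T →ₗ[ℝ] T →ₗ[ℝ] ℝ) (e₁ f₁ e₂ f₂ : T) : Prop where
  c11 : b e₁ e₁ = 0
  c12 : b e₁ f₁ = 1
  c13 : b e₁ e₂ = 0
  c14 : b e₁ f₂ = 0
  c21 : b f₁ e₁ = 1
  c22 : b f₁ f₁ = 0
  c23 : b f₁ e₂ = 0
  c24 : b f₁ f₂ = 0
  c31 : b e₂ e₁ = 0
  c32 : b e₂ f₁ = 0
  c33 : b e₂ e₂ = 0
  c34 : b e₂ f₂ = 1
  c41 : b f₂ e₁ = 0
  c42 : b f₂ f₁ = 0
  c43 : b f₂ e₂ = 1
  c44 : b f₂ f₂ = 0

lemma HH.of {b : T →ₗ[ℝ] T →ₗ[ℝ] ℝ} {e₁ f₁ e₂ f₂ : T} (hs : ∀ u v, b u v = b v u)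
    (h : Hyp2 b e₁ f₁ e₂ f₂) : HH b e₁ f₁ e₂ f₂ where
  c11 := h.e11
  c12 := h.ef11
  c13 := h.e12
  c14 := h.ef12
  c21 := by rw [hs]; exact h.ef11
  c22 := h.f11
  c23 := by rw [hs]; exact h.ef21
  c24 := h.f12
  c31 := by rw [hs]; exact h.e12
  c32 := h.ef21
  c33 := h.e22
  c34 := h.ef22
  c41 := by rw [hs]; exact h.ef12
  c42 := by rw [hs]; exact h.f12
  c43 := by rw [hs]; exact h.ef22
  c44 := h.f22

lemma HH.swap {b : T →ₗ[ℝ] T →ₗ[ℝ] ℝ} {e₁ f₁ e₂ f₂ : T} (h : HH b e₁ f₁ e₂ f₂) :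
    HH b f₁ e₁ f₂ e₂ where
  c11 := h.c22
  c12 := h.c21
  c13 := h.c24
  c14 := h.c23
  c21 := h.c12
  c22 := h.c11
  c23 := h.c14
  c24 := h.c13
  c31 := h.c42
  c32 := h.c41
  c33 := h.c44
  c34 := h.c43
  c41 := h.c32
  c42 := h.c31
  c43 := h.c34
  c44 := h.c33

/-- the projection to the orthogonal complement -/
def pr (b : T →ₗ[ℝ] T →ₗ[ℝ] ℝ) (e₁ f₁ e₂ f₂ : T) : End ℝ T :=
  1 - ((b f₁).smulRight e₁ + (b e₁).smulRight f₁ + (b f₂).smulRight e₂ + (b e₂).smulRight f₂)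

lemma pr_apply (b : T →ₗ[ℝ] T →ₗ[ℝ] ℝ) (e₁ f₁ e₂ f₂ t : T) :
    pr b e₁ f₁ e₂ f₂ t = t - (b f₁ t • e₁ + b e₁ t • f₁ + b f₂ t • e₂ + b e₂ t • f₂) := by
  simp [pr]

lemma pr_swap (b : T →ₗ[ℝ] T →ₗ[ℝ] ℝ) (e₁ f₁ e₂ f₂ : T) :
    pr b f₁ e₁ f₂ e₂ = pr b e₁ f₁ e₂ f₂ := by
  ext t
  rw [pr_apply, pr_apply]
  abel

/-- `t` is orthogonal to the four vectors -/
structure Orth (b : T →ₗ[ℝ] T →ₗ[ℝ] ℝ) (e₁ f₁ e₂ f₂ t : T) : Prop where
  d1 : b e₁ t = 0
  d2 : b f₁ t = 0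
  d3 : b e₂ t = 0
  d4 : b f₂ t = 0

lemma Orth.swap {b : T →ₗ[ℝ] T →ₗ[ℝ] ℝ} {e₁ f₁ e₂ f₂ t : T} (h : Orth b e₁ f₁ e₂ f₂ t) :
    Orth b f₁ e₁ f₂ e₂ t := ⟨h.d2, h.d1, h.d4, h.d3⟩

lemma Orth.pr_eq {b : T →ₗ[ℝ] T →ₗ[ℝ] ℝ} {e₁ f₁ e₂ f₂ t : T} (h : Orth b e₁ f₁ e₂ f₂ t) :
    pr b e₁ f₁ e₂ f₂ t = t := by
  rw [pr_apply, h.d1, h.d2, h.d3, h.d4]
  simp

lemma Orth.smul {b : T →ₗ[ℝ] T →ₗ[ℝ] ℝ} {e₁ f₁ e₂ f₂ t : T} (c : ℝ)
    (h : Orth b e₁ f₁ e₂ f₂ t) : Orth b e₁ f₁ e₂ f₂ (c • t) := by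
  constructor <;> simp [h.d1, h.d2, h.d3, h.d4]

lemma Orth.sub {b : T →ₗ[ℝ] T →ₗ[ℝ] ℝ} {e₁ f₁ e₂ f₂ t t' : T}
    (h : Orth b e₁ f₁ e₂ f₂ t) (h' : Orth b e₁ f₁ e₂ f₂ t') : Orth b e₁ f₁ e₂ f₂ (t - t') := by
  constructor <;> simp [h.d1, h.d2, h.d3, h.d4, h'.d1, h'.d2, h'.d3, h'.d4]

lemma orth_pr {b : T →ₗ[ℝ] T →ₗ[ℝ] ℝ} {e₁ f₁ e₂ f₂ : T} (H : HH b e₁ f₁ e₂ f₂) (t : T) :
    Orth b e₁ f₁ e₂ f₂ (pr b e₁ f₁ e₂ f₂ t) := by
  constructor <;> rw [pr_apply] <;> simp [H.c11, H.c12, H.c13, H.c14, H.c21, H.c22, H.c23, H.c24,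
    H.c31, H.c32, H.c33, H.c34, H.c41, H.c42, H.c43, H.c44]

lemma decomp (b : T →ₗ[ℝ] T →ₗ[ℝ] ℝ) (e₁ f₁ e₂ f₂ t : T) :
    t = pr b e₁ f₁ e₂ f₂ t + (b f₁ t • e₁ + b e₁ t • f₁ + b f₂ t • e₂ + b e₂ t • f₂) := by
  rw [pr_apply]
  abel

/-- products with `t` in the orthogonal complement -/
lemma b_pr_left {b : T →ₗ[ℝ] T →ₗ[ℝ] ℝ} {e₁ f₁ e₂ f₂ t : T} (hs : ∀ u v, b u v = b v u)
    (h : Orth b e₁ f₁ e₂ f₂ t) (s : T) : b t (pr b e₁ f₁ e₂ f₂ s) = b t s := by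
  rw [pr_apply]
  simp [hs t e₁, hs t f₁, hs t e₂, hs t f₂, h.d1, h.d2, h.d3, h.d4]

/-- the element `h` -/
def hh (b : T →ₗ[ℝ] T →ₗ[ℝ] ℝ) (e₁ f₁ e₂ f₂ : T) (a₁ a₂ : ℝ) : End ℝ T :=
  a₁ • wdg b e₁ f₁ + a₂ • wdg b e₂ f₂

lemma hh_apply (b : T →ₗ[ℝ] T →ₗ[ℝ] ℝ) (e₁ f₁ e₂ f₂ : T) (a₁ a₂ : ℝ) (t : T) :
    hh b e₁ f₁ e₂ f₂ a₁ a₂ t = (a₁ * b f₁ t) • e₁ - (a₁ * b e₁ t) • f₁ + (a₂ * b f₂ t) • e₂ -
      (a₂ * b e₂ t) • f₂ := by
  simp only [hh, LinearMap.add_apply, LinearMap.smul_apply, wdg_apply]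
  module

lemma hh_swap (b : T →ₗ[ℝ] T →ₗ[ℝ] ℝ) (e₁ f₁ e₂ f₂ : T) (a₁ a₂ : ℝ) :
    hh b f₁ e₁ f₂ e₂ a₁ a₂ = -hh b e₁ f₁ e₂ f₂ a₁ a₂ := by
  unfold hh
  rw [wdg_swap b f₁, wdg_swap b f₂]
  module

lemma eig {b : T →ₗ[ℝ] T →ₗ[ℝ] ℝ} {e₁ f₁ e₂ f₂ : T} (H : HH b e₁ f₁ e₂ f₂) (a₁ a₂ μ : ℝ) (w : T)
    (hw : hh b e₁ f₁ e₂ f₂ a₁ a₂ w = μ • w) :
    (μ - a₁) * b f₁ w = 0 ∧ (μ + a₁) * b e₁ w = 0 ∧ (μ - a₂) * b f₂ w = 0 ∧
      (μ + a₂) * b e₂ w = 0 ∧ μ • pr b e₁ f₁ e₂ f₂ w = 0 := by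
  rw [hh_apply] at hw
  refine ⟨?_, ?_, ?_, ?_, ?_⟩
  · have := congrArg (b f₁) hw
    simp only [map_add, map_sub, map_smul, smul_eq_mul, H.c21, H.c22, H.c23, H.c24] at this
    linarith
  · have := congrArg (b e₁) hw
    simp only [map_add, map_sub, map_smul, smul_eq_mul, H.c11, H.c12, H.c13, H.c14] at this
    linarith
  · have := congrArg (b f₂) hw
    simp only [map_add, map_sub, map_smul, smul_eq_mul, H.c41, H.c42, H.c43, H.c44] at this
    linarith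
  · have := congrArg (b e₂) hw
    simp only [map_add, map_sub, map_smul, smul_eq_mul, H.c31, H.c32, H.c33, H.c34] at this
    linarith
  · rw [← map_smul, ← hw, pr_apply]
    simp only [map_add, map_sub, map_smul, smul_eq_mul, H.c11, H.c12, H.c13, H.c14, H.c21, H.c22,
      H.c23, H.c24, H.c31, H.c32, H.c33, H.c34, H.c41, H.c42, H.c43, H.c44]
    module

/-- components of an element of `g` -/
lemma comp {b : T →ₗ[ℝ] T →ₗ[ℝ] ℝ} {g : Submodule ℝ (End ℝ T)} (G : Good b g)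
    {e₁ f₁ e₂ f₂ : T} (H : HH b e₁ f₁ e₂ f₂) (a₁ a₂ : ℝ)
    (hg : hh b e₁ f₁ e₂ f₂ a₁ a₂ ∈ g) (ν : ℝ) (x : End ℝ T) (hx : x ∈ g) :
    ∃ y ∈ g, hh b e₁ f₁ e₂ f₂ a₁ a₂ * y - y * hh b e₁ f₁ e₂ f₂ a₁ a₂ = ν • y ∧
      (ν = a₁ → pr b e₁ f₁ e₂ f₂ (y f₁) = pr b e₁ f₁ e₂ f₂ (x f₁)) ∧
      (ν = a₂ → pr b e₁ f₁ e₂ f₂ (y f₂) = pr b e₁ f₁ e₂ f₂ (x f₂)) ∧
      (ν = 0 → ∀ t, Orth b e₁ f₁ e₂ f₂ t →
        pr b e₁ f₁ e₂ f₂ (y t) = pr b e₁ f₁ e₂ f₂ (x t)) := by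
  set h := hh b e₁ f₁ e₂ f₂ a₁ a₂ with hh'
  set P : Fin 5 → End ℝ T := ![pr b e₁ f₁ e₂ f₂, (b f₁).smulRight e₁, (b e₁).smulRight f₁,
    (b f₂).smulRight e₂, (b e₂).smulRight f₂] with hP
  set lam : Fin 5 → ℝ := ![0, a₁, -a₁, a₂, -a₂] with hlam
  have hs : ∑ i, P i = 1 := by
    rw [Fin.sum_univ_five]
    simp only [hP, pr, Matrix.cons_val_zero, Matrix.cons_val_one, Matrix.cons_val]
    abel
  have hsymm := G.symm
  have hl : ∀ i, P i * h = lam i • P i := by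
    intro i
    ext t
    fin_cases i
    · simp only [hP, hlam, Fin.zero_eta, Matrix.cons_val_zero, zero_smul, LinearMap.zero_apply,
        Module.End.mul_apply, hh']
      rw [hh_apply, pr_apply]
      simp only [map_add, map_sub, map_smul, smul_eq_mul, H.c11, H.c12, H.c13, H.c14, H.c21,
        H.c22, H.c23, H.c24, H.c31, H.c32, H.c33, H.c34, H.c41, H.c42, H.c43, H.c44]
      module
    all_goals
      simp only [hP, hlam, Fin.mk_one, Fin.reduceFinMk, Matrix.cons_val, Matrix.cons_val_one,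
        LinearMap.smul_apply, Module.End.mul_apply, LinearMap.smulRight_apply, hh']
      rw [hh_apply]
      simp only [map_add, map_sub, map_smul, smul_eq_mul, H.c11, H.c12, H.c13, H.c14, H.c21,
        H.c22, H.c23, H.c24, H.c31, H.c32, H.c33, H.c34, H.c41, H.c42, H.c43, H.c44]
      module
  have hr : ∀ i, h * P i = lam i • P i := by
    intro i
    ext t
    fin_cases i
    · simp only [hP, hlam, Fin.zero_eta, Matrix.cons_val_zero, zero_smul, LinearMap.zero_apply,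
        Module.End.mul_apply, hh']
      have ho := orth_pr H t
      rw [hh_apply, ho.d1, ho.d2, ho.d3, ho.d4]
      simp
    all_goals
      simp only [hP, hlam, Fin.mk_one, Fin.reduceFinMk, Matrix.cons_val, Matrix.cons_val_one,
        LinearMap.smul_apply, Module.End.mul_apply, LinearMap.smulRight_apply, hh']
      rw [hh_apply]
      simp only [map_add, map_sub, map_smul, smul_eq_mul, H.c11, H.c12, H.c13, H.c14, H.c21,
        H.c22, H.c23, H.c24, H.c31, H.c32, H.c33, H.c34, H.c41, H.c42, H.c43, H.c44]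
      module
  obtain ⟨y, hy, h1, h2⟩ := comp_exists P lam h hs hl hr g (fun x hx => G.bracket h hg x hx) ν x hx
  refine ⟨y, hy, h1, ?_, ?_, ?_⟩
  · intro hν
    have h3 := h2 0 2 (by simp [hlam, hν])
    have h4 := congrArg (fun z : End ℝ T => z f₁) h3
    simp only [hP, Matrix.cons_val_zero, Matrix.cons_val, Module.End.mul_apply,
      LinearMap.smulRight_apply, H.c12, one_smul] at h4
    exact h4
  · intro hν
    have h3 := h2 0 4 (by simp [hlam, hν])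
    have h4 := congrArg (fun z : End ℝ T => z f₂) h3
    simp only [hP, Matrix.cons_val_zero, Matrix.cons_val, Module.End.mul_apply,
      LinearMap.smulRight_apply, H.c34, one_smul] at h4
    exact h4
  · intro hν t ht
    have h3 := h2 0 0 (by simp [hν])
    have h4 := congrArg (fun z : End ℝ T => z t) h3
    simp only [hP, Matrix.cons_val_zero, Module.End.mul_apply, ht.pr_eq] at h4
    exact h4

/-- the action of an element of degree `ν` on eigenvectors -/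
lemma act {h y : End ℝ T} {ν : ℝ} (hy : h * y - y * h = ν • y) {μ : ℝ} {t : T}
    (ht : h t = μ • t) : h (y t) = (μ + ν) • y t := by
  have h1 := congrArg (fun z : End ℝ T => z t) hy
  simp only [LinearMap.sub_apply, Module.End.mul_apply, LinearMap.smul_apply, ht, map_smul] at h1
  rw [sub_eq_iff_eq_add] at h1
  rw [h1]
  module

lemma hh_e1 {b : T →ₗ[ℝ] T →ₗ[ℝ] ℝ} {e₁ f₁ e₂ f₂ : T} (H : HH b e₁ f₁ e₂ f₂) (a₁ a₂ : ℝ) :
    hh b e₁ f₁ e₂ f₂ a₁ a₂ e₁ = a₁ • e₁ := by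
  rw [hh_apply, H.c21, H.c11, H.c41, H.c31]
  simp

lemma hh_f1 {b : T →ₗ[ℝ] T →ₗ[ℝ] ℝ} {e₁ f₁ e₂ f₂ : T} (H : HH b e₁ f₁ e₂ f₂) (a₁ a₂ : ℝ) :
    hh b e₁ f₁ e₂ f₂ a₁ a₂ f₁ = (-a₁) • f₁ := by
  rw [hh_apply, H.c22, H.c12, H.c42, H.c32]
  simp

lemma hh_e2 {b : T →ₗ[ℝ] T →ₗ[ℝ] ℝ} {e₁ f₁ e₂ f₂ : T} (H : HH b e₁ f₁ e₂ f₂) (a₁ a₂ : ℝ) :
    hh b e₁ f₁ e₂ f₂ a₁ a₂ e₂ = a₂ • e₂ := by
  rw [hh_apply, H.c23, H.c13, H.c43, H.c33]
  simp

lemma hh_f2 {b : T →ₗ[ℝ] T →ₗ[ℝ] ℝ} {e₁ f₁ e₂ f₂ : T} (H : HH b e₁ f₁ e₂ f₂) (a₁ a₂ : ℝ) :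
    hh b e₁ f₁ e₂ f₂ a₁ a₂ f₂ = (-a₂) • f₂ := by
  rw [hh_apply, H.c24, H.c14, H.c44, H.c34]
  simp

lemma hh_orth {b : T →ₗ[ℝ] T →ₗ[ℝ] ℝ} {e₁ f₁ e₂ f₂ t : T} (h : Orth b e₁ f₁ e₂ f₂ t)
    (a₁ a₂ : ℝ) : hh b e₁ f₁ e₂ f₂ a₁ a₂ t = (0 : ℝ) • t := by
  rw [hh_apply, h.d1, h.d2, h.d3, h.d4]
  simp

/-- the component of degree `a₁` -/
lemma C1 {b : T →ₗ[ℝ] T →ₗ[ℝ] ℝ} {g : Submodule ℝ (End ℝ T)} (G : Good b g)
    {e₁ f₁ e₂ f₂ : T} (H : HH b e₁ f₁ e₂ f₂) {a₁ a₂ : ℝ} (ha : 0 < a₂) (ha' : a₂ < a₁)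
    (hg : hh b e₁ f₁ e₂ f₂ a₁ a₂ ∈ g) (x : End ℝ T) (hx : x ∈ g) :
    wdg b (pr b e₁ f₁ e₂ f₂ (x f₁)) e₁ ∈ g := by
  obtain ⟨y, hy, h1, h2, -, -⟩ := comp G H a₁ a₂ hg a₁ x hx
  have hsk := G.skew y hy
  have hs := G.symm
  rw [← h2 rfl]
  have z1 : y e₁ = 0 := by
    obtain ⟨k1, k2, k3, k4, k5⟩ := eig H a₁ a₂ _ _ (act h1 (hh_e1 H a₁ a₂))
    have l1 := (mul_eq_zero.mp k1).resolve_left (by linarith)
    have l2 := (mul_eq_zero.mp k2).resolve_left (by linarith)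
    have l3 := (mul_eq_zero.mp k3).resolve_left (by linarith)
    have l4 := (mul_eq_zero.mp k4).resolve_left (by linarith)
    have l5 := (smul_eq_zero.mp k5).resolve_left (by linarith)
    rw [decomp b e₁ f₁ e₂ f₂ (y e₁), l1, l2, l3, l4, l5]
    simp
  have z2 : y e₂ = 0 := by
    obtain ⟨k1, k2, k3, k4, k5⟩ := eig H a₁ a₂ _ _ (act h1 (hh_e2 H a₁ a₂))
    have l1 := (mul_eq_zero.mp k1).resolve_left (by linarith)
    have l2 := (mul_eq_zero.mp k2).resolve_left (by linarith)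
    have l3 := (mul_eq_zero.mp k3).resolve_left (by linarith)
    have l4 := (mul_eq_zero.mp k4).resolve_left (by linarith)
    have l5 := (smul_eq_zero.mp k5).resolve_left (by linarith)
    rw [decomp b e₁ f₁ e₂ f₂ (y e₂), l1, l2, l3, l4, l5]
    simp
  have z3 : y f₂ = 0 := by
    obtain ⟨k1, k2, k3, k4, k5⟩ := eig H a₁ a₂ _ _ (act h1 (hh_f2 H a₁ a₂))
    have l1 := (mul_eq_zero.mp k1).resolve_left (by linarith)
    have l2 := (mul_eq_zero.mp k2).resolve_left (by linarith)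
    have l3 : b f₂ (y f₂) = 0 := by
      have := hsk f₂ f₂
      rw [hs (y f₂) f₂] at this
      linarith
    have l4 := (mul_eq_zero.mp k4).resolve_left (by linarith)
    have l5 := (smul_eq_zero.mp k5).resolve_left (by linarith)
    rw [decomp b e₁ f₁ e₂ f₂ (y f₂), l1, l2, l3, l4, l5]
    simp
  have z4 : y f₁ = pr b e₁ f₁ e₂ f₂ (y f₁) := by
    obtain ⟨k1, k2, k3, k4, k5⟩ := eig H a₁ a₂ _ _ (act h1 (hh_f1 H a₁ a₂))
    have l1 := (mul_eq_zero.mp k1).resolve_left (by linarith)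
    have l2 := (mul_eq_zero.mp k2).resolve_left (by linarith)
    have l3 := (mul_eq_zero.mp k3).resolve_left (by linarith)
    have l4 := (mul_eq_zero.mp k4).resolve_left (by linarith)
    conv_lhs => rw [decomp b e₁ f₁ e₂ f₂ (y f₁), l1, l2, l3, l4]
    simp
  have z5 : ∀ t, Orth b e₁ f₁ e₂ f₂ t → y t = -(b (y f₁) t) • e₁ := by
    intro t ht
    obtain ⟨k1, k2, k3, k4, k5⟩ := eig H a₁ a₂ _ _ (act h1 (hh_orth ht a₁ a₂))
    have l1 : b f₁ (y t) = -b (y f₁) t := by linarith [hsk f₁ t]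
    have l2 := (mul_eq_zero.mp k2).resolve_left (by linarith)
    have l3 := (mul_eq_zero.mp k3).resolve_left (by linarith)
    have l4 := (mul_eq_zero.mp k4).resolve_left (by linarith)
    have l5 := (smul_eq_zero.mp k5).resolve_left (by linarith)
    rw [decomp b e₁ f₁ e₂ f₂ (y t), l1, l2, l3, l4, l5]
    simp
  have hr := orth_pr H (y f₁)
  rw [← z4] at hr ⊢
  have key : wdg b (y f₁) e₁ = y := by
    ext t
    rw [wdg_apply]
    conv_rhs => rw [decomp b e₁ f₁ e₂ f₂ t, map_add, map_add, map_add, map_add, map_smul, map_smul,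
      map_smul, map_smul, z1, z2, z3, z5 _ (orth_pr H t), b_pr_left hs hr]
    module
  rw [key]
  exact hy

/-- the component of degree `a₂` -/
lemma C3 {b : T →ₗ[ℝ] T →ₗ[ℝ] ℝ} {g : Submodule ℝ (End ℝ T)} (G : Good b g)
    {e₁ f₁ e₂ f₂ : T} (H : HH b e₁ f₁ e₂ f₂) {a₁ a₂ : ℝ} (ha : 0 < a₂) (ha' : a₂ < a₁)
    (hg : hh b e₁ f₁ e₂ f₂ a₁ a₂ ∈ g) (x : End ℝ T) (hx : x ∈ g) :
    ∃ c : ℝ, wdg b (pr b e₁ f₁ e₂ f₂ (x f₂)) e₂ + c • wdg b e₁ f₂ ∈ g := by
  obtain ⟨y, hy, h1, -, h2, -⟩ := comp G H a₁ a₂ hg a₂ x hx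
  have hsk := G.skew y hy
  have hs := G.symm
  rw [← h2 rfl]
  refine ⟨b f₁ (y e₂), ?_⟩
  have z1 : y e₁ = 0 := by
    obtain ⟨k1, k2, k3, k4, k5⟩ := eig H a₁ a₂ _ _ (act h1 (hh_e1 H a₁ a₂))
    have l1 := (mul_eq_zero.mp k1).resolve_left (by linarith)
    have l2 := (mul_eq_zero.mp k2).resolve_left (by linarith)
    have l3 := (mul_eq_zero.mp k3).resolve_left (by linarith)
    have l4 := (mul_eq_zero.mp k4).resolve_left (by linarith)
    have l5 := (smul_eq_zero.mp k5).resolve_left (by linarith)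
    rw [decomp b e₁ f₁ e₂ f₂ (y e₁), l1, l2, l3, l4, l5]
    simp
  have z2 : y e₂ = b f₁ (y e₂) • e₁ := by
    obtain ⟨k1, k2, k3, k4, k5⟩ := eig H a₁ a₂ _ _ (act h1 (hh_e2 H a₁ a₂))
    have l2 := (mul_eq_zero.mp k2).resolve_left (by linarith)
    have l3 := (mul_eq_zero.mp k3).resolve_left (by linarith)
    have l4 := (mul_eq_zero.mp k4).resolve_left (by linarith)
    have l5 := (smul_eq_zero.mp k5).resolve_left (by linarith)
    conv_lhs => rw [decomp b e₁ f₁ e₂ f₂ (y e₂), l2, l3, l4, l5]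
    simp
  have z3 : y f₁ = -(b f₁ (y e₂)) • f₂ := by
    obtain ⟨k1, k2, k3, k4, k5⟩ := eig H a₁ a₂ _ _ (act h1 (hh_f1 H a₁ a₂))
    have l1 := (mul_eq_zero.mp k1).resolve_left (by linarith)
    have l2 := (mul_eq_zero.mp k2).resolve_left (by linarith)
    have l3 := (mul_eq_zero.mp k3).resolve_left (by linarith)
    have l4 : b e₂ (y f₁) = -b f₁ (y e₂) := by
      have := hsk e₂ f₁
      rw [hs (y e₂) f₁] at this
      linarith
    have l5 := (smul_eq_zero.mp k5).resolve_left (by linarith)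
    conv_lhs => rw [decomp b e₁ f₁ e₂ f₂ (y f₁), l1, l2, l3, l4, l5]
    simp
  have z4 : y f₂ = pr b e₁ f₁ e₂ f₂ (y f₂) := by
    obtain ⟨k1, k2, k3, k4, k5⟩ := eig H a₁ a₂ _ _ (act h1 (hh_f2 H a₁ a₂))
    have l1 := (mul_eq_zero.mp k1).resolve_left (by linarith)
    have l2 := (mul_eq_zero.mp k2).resolve_left (by linarith)
    have l3 := (mul_eq_zero.mp k3).resolve_left (by linarith)
    have l4 := (mul_eq_zero.mp k4).resolve_left (by linarith)
    conv_lhs => rw [decomp b e₁ f₁ e₂ f₂ (y f₂), l1, l2, l3, l4]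
    simp
  have z5 : ∀ t, Orth b e₁ f₁ e₂ f₂ t → y t = -(b (y f₂) t) • e₂ := by
    intro t ht
    obtain ⟨k1, k2, k3, k4, k5⟩ := eig H a₁ a₂ _ _ (act h1 (hh_orth ht a₁ a₂))
    have l1 := (mul_eq_zero.mp k1).resolve_left (by linarith)
    have l2 := (mul_eq_zero.mp k2).resolve_left (by linarith)
    have l3 : b f₂ (y t) = -b (y f₂) t := by linarith [hsk f₂ t]
    have l4 := (mul_eq_zero.mp k4).resolve_left (by linarith)
    have l5 := (smul_eq_zero.mp k5).resolve_left (by linarith)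
    rw [decomp b e₁ f₁ e₂ f₂ (y t), l1, l2, l3, l4, l5]
    simp
  have hr := orth_pr H (y f₂)
  rw [← z4] at hr ⊢
  obtain ⟨κ, hκ⟩ : ∃ κ, κ = b f₁ (y e₂) := ⟨_, rfl⟩
  rw [← hκ] at z2 z3 ⊢
  have key : wdg b (y f₂) e₂ + κ • wdg b e₁ f₂ = y := by
    ext t
    rw [LinearMap.add_apply, LinearMap.smul_apply, wdg_apply, wdg_apply]
    conv_rhs => rw [decomp b e₁ f₁ e₂ f₂ t, map_add, map_add, map_add, map_add, map_smul, map_smul,
      map_smul, map_smul, z1, z3, z5 _ (orth_pr H t), b_pr_left hs hr, z2]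
    module
  rw [key]
  exact hy

/-- the component of degree `0` -/
lemma C5 {b : T →ₗ[ℝ] T →ₗ[ℝ] ℝ} {g : Submodule ℝ (End ℝ T)} (G : Good b g)
    {e₁ f₁ e₂ f₂ : T} (H : HH b e₁ f₁ e₂ f₂) {a₁ a₂ : ℝ} (ha : 0 < a₂) (ha' : a₂ < a₁)
    (hg : hh b e₁ f₁ e₂ f₂ a₁ a₂ ∈ g) (x : End ℝ T) (hx : x ∈ g) :
    ∃ y ∈ g, ∃ α β : ℝ, y e₁ = β • e₁ ∧ y e₂ = α • e₂ ∧ y f₂ = (-α) • f₂ ∧
      ∀ t, Orth b e₁ f₁ e₂ f₂ t → y t = pr b e₁ f₁ e₂ f₂ (x t) := by
  obtain ⟨y, hy, h1, -, -, h2⟩ := comp G H a₁ a₂ hg 0 x hx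
  have hsk := G.skew y hy
  have hs := G.symm
  have h2 := h2 rfl
  refine ⟨y, hy, b f₂ (y e₂), b f₁ (y e₁), ?_, ?_, ?_, ?_⟩
  · obtain ⟨k1, k2, k3, k4, k5⟩ := eig H a₁ a₂ _ _ (act h1 (hh_e1 H a₁ a₂))
    have l2 := (mul_eq_zero.mp k2).resolve_left (by linarith)
    have l3 := (mul_eq_zero.mp k3).resolve_left (by linarith)
    have l4 := (mul_eq_zero.mp k4).resolve_left (by linarith)
    have l5 := (smul_eq_zero.mp k5).resolve_left (by linarith)
    conv_lhs => rw [decomp b e₁ f₁ e₂ f₂ (y e₁), l2, l3, l4, l5]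
    simp
  · obtain ⟨k1, k2, k3, k4, k5⟩ := eig H a₁ a₂ _ _ (act h1 (hh_e2 H a₁ a₂))
    have l1 := (mul_eq_zero.mp k1).resolve_left (by linarith)
    have l2 := (mul_eq_zero.mp k2).resolve_left (by linarith)
    have l4 := (mul_eq_zero.mp k4).resolve_left (by linarith)
    have l5 := (smul_eq_zero.mp k5).resolve_left (by linarith)
    conv_lhs => rw [decomp b e₁ f₁ e₂ f₂ (y e₂), l1, l2, l4, l5]
    simp
  · obtain ⟨k1, k2, k3, k4, k5⟩ := eig H a₁ a₂ _ _ (act h1 (hh_f2 H a₁ a₂))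
    have l1 := (mul_eq_zero.mp k1).resolve_left (by linarith)
    have l2 := (mul_eq_zero.mp k2).resolve_left (by linarith)
    have l3 := (mul_eq_zero.mp k3).resolve_left (by linarith)
    have l4 : b e₂ (y f₂) = -b f₂ (y e₂) := by
      have := hsk e₂ f₂
      rw [hs (y e₂) f₂] at this
      linarith
    have l5 := (smul_eq_zero.mp k5).resolve_left (by linarith)
    conv_lhs => rw [decomp b e₁ f₁ e₂ f₂ (y f₂), l1, l2, l3, l4, l5]
    simp
  · intro t ht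
    rw [← h2 t ht]
    obtain ⟨k1, k2, k3, k4, k5⟩ := eig H a₁ a₂ _ _ (act h1 (hh_orth ht a₁ a₂))
    have l1 := (mul_eq_zero.mp k1).resolve_left (by linarith)
    have l2 := (mul_eq_zero.mp k2).resolve_left (by linarith)
    have l3 := (mul_eq_zero.mp k3).resolve_left (by linarith)
    have l4 := (mul_eq_zero.mp k4).resolve_left (by linarith)
    conv_lhs => rw [decomp b e₁ f₁ e₂ f₂ (y t), l1, l2, l3, l4]
    simp

/-! ### Hyperbolic elements -/

lemma isHyp_wdg (b : T →ₗ[ℝ] T →ₗ[ℝ] ℝ) (e f : T) (hee : b e e = 0) (hff : b f f = 0)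
    (hef : b e f = 1) (hfe : b f e = 1) (s : ℝ) : IsHyp (s • wdg b e f) := by
  unfold IsHyp
  rw [eq_top_iff]
  intro t _
  have e1 : wdg b e f e = e := by rw [wdg_apply, hfe, hee]; simp
  have e2 : wdg b e f f = -f := by rw [wdg_apply, hff, hef]; simp
  have e3 : wdg b e f (t - b f t • e - b e t • f) = 0 := by
    rw [wdg_apply]
    simp only [map_sub, map_smul, smul_eq_mul, hee, hff, hef, hfe]
    module
  have m1 : e ∈ Module.End.eigenspace (s • wdg b e f) s := by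
    rw [Module.End.mem_eigenspace_iff, LinearMap.smul_apply, e1]
  have m2 : f ∈ Module.End.eigenspace (s • wdg b e f) (-s) := by
    rw [Module.End.mem_eigenspace_iff, LinearMap.smul_apply, e2]
    module
  have m3 : t - b f t • e - b e t • f ∈ Module.End.eigenspace (s • wdg b e f) 0 := by
    rw [Module.End.mem_eigenspace_iff, LinearMap.smul_apply, e3]
    simp
  have h1 := (le_iSup (fun μ : ℝ => Module.End.eigenspace (s • wdg b e f) μ) s) m1
  have h2 := (le_iSup (fun μ : ℝ => Module.End.eigenspace (s • wdg b e f) μ) (-s)) m2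
  have h3 := (le_iSup (fun μ : ℝ => Module.End.eigenspace (s • wdg b e f) μ) 0) m3
  have h4 : t = (t - b f t • e - b e t • f) + b f t • e + b e t • f := by abel
  rw [h4]
  exact Submodule.add_mem _ (Submodule.add_mem _ h3 (Submodule.smul_mem _ _ h1))
    (Submodule.smul_mem _ _ h2)

lemma noRe_of (b : T →ₗ[ℝ] T →ₗ[ℝ] ℝ) (hs : ∀ u v, b u v = b v u) (z : End ℝ T)
    (hz : ∀ u v, b (z u) v + b u (z v) = 0) (h0 : ∀ v, b (z v) (z v) = 0 → z v = 0) :
    NoRe z := by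
  intro a c ha v hv
  have h1 : b (z (z v)) (z v) = 0 := by
    have := hz (z v) (z v)
    rw [hs (z v) (z (z v))] at this
    linarith
  have h2 : b v (z v) = 0 := by
    have := hz v v
    rw [hs (z v) v] at this
    linarith
  have h3 := congrArg (fun t => b t (z v)) hv
  simp only [map_add, map_sub, map_smul, LinearMap.add_apply, LinearMap.sub_apply,
    LinearMap.smul_apply, smul_eq_mul, h1, h2, map_zero, LinearMap.zero_apply] at h3
  have h4 : b (z v) (z v) = 0 := by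
    have h5 : (2 * a) * b (z v) (z v) = 0 := by linarith
    exact (mul_eq_zero.mp h5).resolve_left (by simpa using ha)
  have h5 := h0 v h4
  rw [h5] at hv
  simp only [map_zero, smul_zero, sub_zero, zero_add] at hv
  have h6 : 0 < a ^ 2 + c ^ 2 := by positivity
  exact (smul_eq_zero.mp hv).resolve_left h6.ne'

/-- vectors of the orthogonal complement are anisotropic -/
lemma aniso [FiniteDimensional ℝ T] {b : T →ₗ[ℝ] T →ₗ[ℝ] ℝ} {g : Submodule ℝ (End ℝ T)}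
    (G : Good b g) {e₁ f₁ e₂ f₂ : T} (H : HH b e₁ f₁ e₂ f₂) {t : T}
    (ht : Orth b e₁ f₁ e₂ f₂ t) (h : b t t = 0) : t = 0 := by
  by_contra hne
  have hs := G.symm
  have hli : LinearIndependent ℝ ![e₁, e₂, t] := by
    rw [Fintype.linearIndependent_iff]
    intro c hc
    simp only [Fin.sum_univ_three, Matrix.cons_val_zero, Matrix.cons_val_one, Matrix.cons_val]
      at hc
    have h1 := congrArg (b f₁) hc
    have h2 := congrArg (b f₂) hc
    simp only [map_add, map_smul, smul_eq_mul, H.c21, H.c23, H.c41, H.c43, ht.d2, ht.d4,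
      map_zero] at h1 h2
    have c0 : c 0 = 0 := by linarith
    have c1 : c 1 = 0 := by linarith
    rw [c0, c1] at hc
    simp only [zero_smul, zero_add] at hc
    have c2 : c 2 = 0 := (smul_eq_zero.mp hc).resolve_right hne
    intro i
    fin_cases i
    · exact c0
    · exact c1
    · exact c2
  have hfr := finrank_span_eq_card hli
  have hw := G.witt (Submodule.span ℝ (Set.range ![e₁, e₂, t])) (by
    intro u hu v hv
    have hgen : ∀ u' ∈ Set.range ![e₁, e₂, t], ∀ v' ∈ Set.range ![e₁, e₂, t], b u' v' = 0 := by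
      rintro _ ⟨i, rfl⟩ _ ⟨j, rfl⟩
      fin_cases i <;> fin_cases j <;>
        simp [H.c11, H.c13, H.c31, H.c33, ht.d1, ht.d3, h, hs t e₁, hs t e₂]
    induction hu using Submodule.span_induction with
    | mem u' hu' =>
      induction hv using Submodule.span_induction with
      | mem v' hv' => exact hgen u' hu' v' hv'
      | zero => simp
      | add x y _ _ hx hy => rw [map_add, hx, hy, add_zero]
      | smul a x _ hx => rw [map_smul, hx, smul_zero]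
    | zero => simp
    | add x y _ _ hx hy => rw [map_add, LinearMap.add_apply, hx, hy, add_zero]
    | smul a x _ hx => rw [map_smul, LinearMap.smul_apply, hx, smul_zero])
  rw [hfr] at hw
  simp at hw

/-- the key argument: `(e, f)` is one of the hyperbolic pairs -/
lemma keyK [FiniteDimensional ℝ T] {b : T →ₗ[ℝ] T →ₗ[ℝ] ℝ} {g : Submodule ℝ (End ℝ T)}
    (G : Good b g) {e₁ f₁ e₂ f₂ : T} (H : HH b e₁ f₁ e₂ f₂) {e f r : T}
    (hef : (e = e₁ ∧ f = f₁) ∨ (e = e₂ ∧ f = f₂)) (hr : Orth b e₁ f₁ e₂ f₂ r) (hr0 : r ≠ 0)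
    (hg : wdg b r e ∈ g)
    (hk : ∀ x ∈ g, ∃ k : End ℝ T, wdg b r e * k - k * wdg b r e = 0 ∧
      wdg b (pr b e₁ f₁ e₂ f₂ (x e)) f + k ∈ g) : wdg b e f ∈ g := by
  have hs := G.symm
  have hee : b e e = 0 := by
    rcases hef with ⟨h1, h2⟩ | ⟨h1, h2⟩ <;> subst h1 <;> subst h2
    · exact H.c11
    · exact H.c33
  have hff : b f f = 0 := by
    rcases hef with ⟨h1, h2⟩ | ⟨h1, h2⟩ <;> subst h1 <;> subst h2
    · exact H.c22
    · exact H.c44
  have hef1 : b e f = 1 := by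
    rcases hef with ⟨h1, h2⟩ | ⟨h1, h2⟩ <;> subst h1 <;> subst h2
    · exact H.c12
    · exact H.c34
  have hfe1 : b f e = 1 := by rw [hs]; exact hef1
  have horth : ∀ t, Orth b e₁ f₁ e₂ f₂ t → b e t = 0 ∧ b f t = 0 := by
    intro t ht
    rcases hef with ⟨h1, h2⟩ | ⟨h1, h2⟩ <;> subst h1 <;> subst h2
    · exact ⟨ht.d1, ht.d2⟩
    · exact ⟨ht.d3, ht.d4⟩
  obtain ⟨er, fr⟩ := horth r hr
  have hne : wdg b r e ≠ 0 := by
    intro h
    have h1 := congrArg (fun z : End ℝ T => z f) h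
    simp only [wdg_apply, hef1, hs r f, fr, LinearMap.zero_apply, one_smul, zero_smul,
      sub_zero] at h1
    exact hr0 h1
  have hex : ∃ x ∈ g, LinearMap.trace ℝ T (wdg b r e * x) ≠ 0 := by
    by_contra hcon
    push Not at hcon
    exact hne (G.trace _ hg hcon)
  obtain ⟨x, hx, hx1⟩ := hex
  rw [wdg_trace b hs r e x (G.skew x hx)] at hx1
  have hx2 : b r (x e) ≠ 0 := fun h => hx1 (by rw [h]; ring)
  rw [← b_pr_left hs hr] at hx2
  obtain ⟨k, hk1, hk2⟩ := hk x hx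
  set p := pr b e₁ f₁ e₂ f₂ (x e) with hp
  have hpo : Orth b e₁ f₁ e₂ f₂ p := orth_pr H _
  obtain ⟨ep, fp⟩ := horth p hpo
  have hskr := wdg_skew b hs r e
  have hbr : wdg b r e * (wdg b p f + k) - (wdg b p f + k) * wdg b r e =
      (-(b r p)) • wdg b e f + wdg b p r := by
    have e1 : wdg b r e * (wdg b p f + k) - (wdg b p f + k) * wdg b r e =
        (wdg b r e * wdg b p f - wdg b p f * wdg b r e) + (wdg b r e * k - k * wdg b r e) := by
      rw [mul_add, add_mul]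
      abel
    rw [e1, hk1, add_zero, wdg_bracket b _ hskr]
    have e2 : wdg b r e p = (-(b r p)) • e := by
      rw [wdg_apply, ep]
      module
    have e3 : wdg b r e f = r := by
      rw [wdg_apply, hef1, hs r f, fr]
      module
    rw [e2, e3, wdg_smul_left]
  have hmem := G.bracket _ hg _ hk2
  rw [hbr] at hmem
  have hy := G.hyp _ _ hmem (by
      have g1 : wdg b e f * wdg b p r = 0 := by
        ext t
        rw [Module.End.mul_apply, wdg_apply b p r t, map_sub, map_smul, map_smul, wdg_apply,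
          wdg_apply, ep, fp, er, fr]
        simp
      have g2 : wdg b p r * wdg b e f = 0 := by
        ext t
        rw [Module.End.mul_apply, wdg_apply b e f t, map_sub, map_smul, map_smul, wdg_apply,
          wdg_apply, hs r e, hs p e, hs r f, hs p f, ep, fp, er, fr]
        simp
      rw [smul_mul_assoc, mul_smul_comm, g1, g2])
    (isHyp_wdg b e f hee hff hef1 hfe1 _)
    (noRe_of b hs _ (wdg_skew b hs p r) (by
      intro v hv
      apply aniso G H _ hv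
      rw [wdg_apply]
      exact (hpo.smul _).sub (hr.smul _)))
  have h9 := g.smul_mem (-(b r p))⁻¹ hy
  rwa [smul_smul, inv_mul_cancel₀ (neg_ne_zero.mpr hx2), one_smul] at h9

lemma br_lin (X Y Z : End ℝ T) (c : ℝ) :
    X * (Y + c • Z) - (Y + c • Z) * X = (X * Y - Y * X) + c • (X * Z - Z * X) := by
  simp only [mul_add, add_mul, mul_smul_comm, smul_mul_assoc, smul_sub]
  abel

/-- one half of the argument -/
lemma half [FiniteDimensional ℝ T] {b : T →ₗ[ℝ] T →ₗ[ℝ] ℝ} {g : Submodule ℝ (End ℝ T)}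
    (G : Good b g) {e₁ f₁ e₂ f₂ : T} (H : HH b e₁ f₁ e₂ f₂) {a₁ a₂ : ℝ} (ha : 0 < a₂)
    (ha' : a₂ < a₁) (hg : hh b e₁ f₁ e₂ f₂ a₁ a₂ ∈ g) (hn : wdg b e₁ f₁ ∉ g) :
    (∀ x ∈ g, pr b e₁ f₁ e₂ f₂ (x f₁) = 0) ∧ ∃ r₀, Orth b e₁ f₁ e₂ f₂ r₀ ∧
      (∀ x ∈ g, ∃ c : ℝ, pr b e₁ f₁ e₂ f₂ (x f₂) = c • r₀) ∧
      (r₀ = 0 ∨ wdg b r₀ e₂ + wdg b e₁ f₂ ∈ g) ∧
      (∀ x ∈ g, pr b e₁ f₁ e₂ f₂ (x r₀) = 0) := by
  have hs := G.symm
  have hg' : hh b f₁ e₁ f₂ e₂ a₁ a₂ ∈ g := by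
    rw [hh_swap]
    exact g.neg_mem hg
  -- first key fact
  have K1 : ∀ r, Orth b e₁ f₁ e₂ f₂ r → wdg b r e₁ ∈ g → r = 0 := by
    intro r hr hrg
    by_contra hr0
    apply hn
    refine keyK G H (Or.inl ⟨rfl, rfl⟩) hr hr0 hrg ?_
    intro x hx
    refine ⟨0, by simp, ?_⟩
    have := C1 G H.swap ha ha' hg' x hx
    rw [pr_swap] at this
    rwa [add_zero]
  have K2 : ∀ r, Orth b e₁ f₁ e₂ f₂ r → wdg b r e₂ ∈ g → r = 0 := by
    intro r hr hrg
    by_contra hr0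
    apply hn
    have h2 : wdg b e₂ f₂ ∈ g := by
      refine keyK G H (Or.inr ⟨rfl, rfl⟩) hr hr0 hrg ?_
      intro x hx
      obtain ⟨c, hc⟩ := C3 G H.swap ha ha' hg' x hx
      rw [pr_swap] at hc
      refine ⟨c • wdg b f₁ e₂, ?_, hc⟩
      have e1 : wdg b r e₂ f₁ = 0 := by
        rw [wdg_apply, H.c32, hs r f₁, hr.d2]
        simp
      have e2 : wdg b r e₂ e₂ = 0 := by
        rw [wdg_apply, H.c33, hs r e₂, hr.d3]
        simp
      have e3 := wdg_bracket b (wdg b r e₂) (wdg_skew b hs r e₂) f₁ e₂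
      rw [mul_smul_comm, smul_mul_assoc, ← smul_sub, e3, e1, e2]
      have e4 : wdg b 0 e₂ + wdg b f₁ 0 = 0 := by
        ext t
        simp [wdg_apply]
      rw [e4, smul_zero]
    have h3 : a₁ • wdg b e₁ f₁ ∈ g := by
      have e1 : a₁ • wdg b e₁ f₁ = hh b e₁ f₁ e₂ f₂ a₁ a₂ - a₂ • wdg b e₂ f₂ := by
        unfold hh
        abel
      rw [e1]
      exact g.sub_mem hg (g.smul_mem _ h2)
    have h4 := g.smul_mem a₁⁻¹ h3
    rwa [smul_smul, inv_mul_cancel₀ (by linarith), one_smul] at h4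
  -- the bracket of two elements of degree `a₂`
  have key2 : ∀ (r : T) (c : ℝ) (r' : T) (c' : ℝ), Orth b e₁ f₁ e₂ f₂ r → Orth b e₁ f₁ e₂ f₂ r' →
      wdg b r e₂ + c • wdg b e₁ f₂ ∈ g → wdg b r' e₂ + c' • wdg b e₁ f₂ ∈ g →
      c • r' = c' • r := by
    intro r c r' c' hr hr' hX hY
    set Xx := wdg b r e₂ + c • wdg b e₁ f₂ with hXx
    have hskX := G.skew Xx hX
    have ap : ∀ t, Xx t = wdg b r e₂ t + c • wdg b e₁ f₂ t := fun t => by
      rw [hXx, LinearMap.add_apply, LinearMap.smul_apply]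
    have x1 : Xx r' = (-(b r r')) • e₂ := by
      rw [ap, wdg_apply, wdg_apply, hr'.d3, hr'.d4, hr'.d1]
      module
    have x2 : Xx e₂ = c • e₁ := by
      rw [ap, wdg_apply, wdg_apply, H.c33, hs r e₂, hr.d3, H.c43, H.c13]
      module
    have x3 : Xx e₁ = 0 := by
      rw [ap, wdg_apply, wdg_apply, H.c31, hs r e₁, hr.d1, H.c41, H.c11]
      module
    have x4 : Xx f₂ = r := by
      rw [ap, wdg_apply, wdg_apply, H.c34, hs r f₂, hr.d4, H.c44, H.c14]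
      module
    have hb := G.bracket _ hX _ hY
    rw [br_lin, wdg_bracket b Xx hskX, wdg_bracket b Xx hskX, x1, x2, x3, x4, wdg_smul_left,
      wdg_smul_right, wdg_self] at hb
    have e2 : (-(b r r')) • (0 : End ℝ T) + c • wdg b r' e₁ + c' • (wdg b 0 f₂ + wdg b e₁ r) =
        wdg b (c • r' - c' • r) e₁ := by
      ext t
      simp only [LinearMap.add_apply, LinearMap.smul_apply, wdg_apply, map_sub, map_smul,
        LinearMap.sub_apply, smul_eq_mul, map_zero, LinearMap.zero_apply]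
      module
    rw [e2] at hb
    exact sub_eq_zero.mp (K1 _ ((hr'.smul _).sub (hr.smul _)) hb)
  refine ⟨fun x hx => K1 _ (orth_pr H _) (C1 G H ha ha' hg x hx), ?_⟩
  by_cases hall : ∀ x ∈ g, pr b e₁ f₁ e₂ f₂ (x f₂) = 0
  · refine ⟨0, ⟨by simp, by simp, by simp, by simp⟩, ?_, Or.inl rfl, ?_⟩
    · intro x hx
      exact ⟨0, by rw [hall x hx, smul_zero]⟩
    · intro x _
      simp
  push Not at hall
  obtain ⟨x₁, hx₁, hne⟩ := hall
  obtain ⟨c₁, hc₁⟩ := C3 G H ha ha' hg x₁ hx₁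
  set r₁ := pr b e₁ f₁ e₂ f₂ (x₁ f₂) with hr₁
  have hr₁o : Orth b e₁ f₁ e₂ f₂ r₁ := orth_pr H _
  have hc₁0 : c₁ ≠ 0 := by
    intro h
    rw [h, zero_smul, add_zero] at hc₁
    exact hne (K2 _ hr₁o hc₁)
  set r₀ := c₁⁻¹ • r₁ with hr₀
  have hr₀o : Orth b e₁ f₁ e₂ f₂ r₀ := hr₁o.smul _
  have hA : wdg b r₀ e₂ + (1 : ℝ) • wdg b e₁ f₂ ∈ g := by
    have h1 := g.smul_mem c₁⁻¹ hc₁
    rw [smul_add, smul_smul, inv_mul_cancel₀ hc₁0, ← wdg_smul_left] at h1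
    exact h1
  clear_value r₀
  refine ⟨r₀, hr₀o, ?_, Or.inr (by rwa [one_smul] at hA), ?_⟩
  · intro x hx
    obtain ⟨c, hc⟩ := C3 G H ha ha' hg x hx
    refine ⟨c, ?_⟩
    have := key2 _ _ _ _ hr₀o (orth_pr H _) hA hc
    rwa [one_smul] at this
  · intro x hx
    obtain ⟨y, hy, α, β, y1, y2, y3, y4⟩ := C5 G H ha ha' hg x hx
    rw [← y4 r₀ hr₀o]
    have hyo : Orth b e₁ f₁ e₂ f₂ (y r₀) := by
      rw [y4 r₀ hr₀o]
      exact orth_pr H _
    have hsk := G.skew y hy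
    have hb := G.bracket y hy _ hA
    have e1 : y * (wdg b r₀ e₂ + (1 : ℝ) • wdg b e₁ f₂) -
        (wdg b r₀ e₂ + (1 : ℝ) • wdg b e₁ f₂) * y =
        wdg b (y r₀ - (-α) • r₀) e₂ + (β - α) • wdg b e₁ f₂ := by
      have e2 := wdg_bracket b y hsk r₀ e₂
      have e3 := wdg_bracket b y hsk e₁ f₂
      rw [y2] at e2
      rw [y1, y3] at e3
      have e4 : y * (wdg b r₀ e₂ + (1 : ℝ) • wdg b e₁ f₂) -
        (wdg b r₀ e₂ + (1 : ℝ) • wdg b e₁ f₂) * y =
        (y * wdg b r₀ e₂ - wdg b r₀ e₂ * y) + (y * wdg b e₁ f₂ - wdg b e₁ f₂ * y) := by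
        rw [one_smul, mul_add, add_mul]
        abel
      rw [e4, e2, e3]
      ext t
      simp only [LinearMap.add_apply, LinearMap.smul_apply, wdg_apply, map_sub, map_smul,
        LinearMap.sub_apply, smul_eq_mul]
      module
    rw [e1] at hb
    have h5 := key2 _ _ _ _ hr₀o (hyo.sub (hr₀o.smul _)) hA hb
    rw [one_smul] at h5
    have h6 : y r₀ = (β - α - α) • r₀ := by
      rw [sub_eq_iff_eq_add] at h5
      rw [h5]
      module
    have h7 : b (y r₀) r₀ = 0 := by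
      have := hsk r₀ r₀
      rw [hs r₀ (y r₀)] at this
      linarith
    rw [h6, map_smul, LinearMap.smul_apply, smul_eq_mul] at h7
    rcases mul_eq_zero.mp h7 with h8 | h8
    · rw [h6, h8, zero_smul]
    · rw [aniso G H hr₀o h8, map_zero]

theorem T_CPQ : S_CPQ := by
  intro T _ _ _ b g G hdim e₁ f₁ e₂ f₂ a₁ a₂ hH ha ha' hg
  by_contra hn
  have hs := G.symm
  have H := HH.of G.symm hH
  have hg' : hh b f₁ e₁ f₂ e₂ a₁ a₂ ∈ g := by
    rw [hh_swap]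
    exact g.neg_mem hg
  have hn' : wdg b f₁ e₁ ∉ g := by
    intro h
    apply hn
    rw [wdg_swap]
    exact g.neg_mem h
  obtain ⟨A1, r₀, r₀o, A2, A3, A4⟩ := half G H ha ha' hg hn
  obtain ⟨B1, p₀, p₀o', B2, B3, B4⟩ := half G H.swap ha ha' hg' hn'
  rw [pr_swap] at B1 B2 B4
  have p₀o : Orth b e₁ f₁ e₂ f₂ p₀ := p₀o'.swap
  let N : Submodule ℝ T :=
    { carrier := {t | Orth b e₁ f₁ e₂ f₂ t ∧ b r₀ t = 0 ∧ b p₀ t = 0}
      add_mem' := by
        rintro s t ⟨h1, h2, h3⟩ ⟨h4, h5, h6⟩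
        refine ⟨?_, ?_, ?_⟩
        · constructor <;> simp [h1.d1, h1.d2, h1.d3, h1.d4, h4.d1, h4.d2, h4.d3, h4.d4]
        · rw [map_add, h2, h5, add_zero]
        · rw [map_add, h3, h6, add_zero]
      zero_mem' := by
        refine ⟨?_, ?_, ?_⟩
        · constructor <;> simp
        · simp
        · simp
      smul_mem' := by
        rintro c t ⟨h1, h2, h3⟩
        refine ⟨h1.smul c, ?_, ?_⟩
        · rw [map_smul, h2, smul_zero]
        · rw [map_smul, h3, smul_zero] }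
  have hNmem : ∀ t, t ∈ N ↔ Orth b e₁ f₁ e₂ f₂ t ∧ b r₀ t = 0 ∧ b p₀ t = 0 := fun t => Iff.rfl
  have hstab : ∀ x ∈ g, ∀ t ∈ N, x t ∈ N := by
    intro x hx t ht
    rw [hNmem] at ht ⊢
    obtain ⟨h1, h2, h3⟩ := ht
    have hsk := G.skew x hx
    have hmove : ∀ u, b u (x t) = -b t (pr b e₁ f₁ e₂ f₂ (x u)) := by
      intro u
      rw [b_pr_left hs h1, hs t (x u)]
      linarith [hsk u t]
    refine ⟨⟨?_, ?_, ?_, ?_⟩, ?_, ?_⟩
    · rw [hmove, B1 x hx]; simp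
    · rw [hmove, A1 x hx]; simp
    · obtain ⟨c, hc⟩ := B2 x hx
      rw [hmove, hc, map_smul, hs t p₀, h3]; simp
    · obtain ⟨c, hc⟩ := A2 x hx
      rw [hmove, hc, map_smul, hs t r₀, h2]; simp
    · rw [hmove, A4 x hx]; simp
    · rw [hmove, B4 x hx]; simp
  rcases G.irr N hstab with hN | hN
  · -- injection into `ℝ ^ 6`
    let L : T →ₗ[ℝ] (Fin 6 → ℝ) := LinearMap.pi ![b e₁, b f₁, b e₂, b f₂, b r₀, b p₀]
    have hL : ∀ t, L t = ![b e₁ t, b f₁ t, b e₂ t, b f₂ t, b r₀ t, b p₀ t] := by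
      intro t
      ext i
      fin_cases i <;> rfl
    have hinj : Function.Injective L := by
      rw [← LinearMap.ker_eq_bot, LinearMap.ker_eq_bot']
      intro t ht
      have hv : ∀ i, L t i = 0 := fun i => by rw [ht]; rfl
      rw [hL] at hv
      have htN : t ∈ N := by
        rw [hNmem]
        exact ⟨⟨hv 0, hv 1, hv 2, hv 3⟩, hv 4, hv 5⟩
      rw [hN] at htN
      simpa using htN
    have hle := LinearMap.finrank_le_finrank_of_injective hinj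
    rw [Module.finrank_fin_fun] at hle
    have hfr : finrank ℝ T = finrank ℝ (Fin 6 → ℝ) := by
      rw [Module.finrank_fin_fun]
      omega
    have hsur : Function.Surjective L :=
      (LinearMap.injective_iff_surjective_of_finrank_eq_finrank hfr).mp hinj
    obtain ⟨t₁, ht₁⟩ := hsur (Pi.single 5 1)
    obtain ⟨t₂, ht₂⟩ := hsur (Pi.single 4 1)
    have k1 : b r₀ t₁ = 0 := by
      have := congrFun ht₁ 4
      rw [hL] at this
      simpa using this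
    have k2 : b p₀ t₁ = 1 := by
      have := congrFun ht₁ 5
      rw [hL] at this
      simpa using this
    have k3 : b r₀ t₂ = 1 := by
      have := congrFun ht₂ 4
      rw [hL] at this
      simpa using this
    have hr₀ : r₀ ≠ 0 := by
      intro h
      rw [h] at k3
      simp at k3
    have hp₀ : p₀ ≠ 0 := by
      intro h
      rw [h] at k2
      simp at k2
    have hA := A3.resolve_left hr₀
    have hB := B3.resolve_left hp₀
    have hx := G.bracket _ hA _ hB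
    have h4 := A4 _ hx
    set A := wdg b r₀ e₂ + wdg b e₁ f₂ with hAd
    set B := wdg b p₀ f₂ + wdg b f₁ e₂ with hBd
    have apA : ∀ t, A t = wdg b r₀ e₂ t + wdg b e₁ f₂ t := fun t => rfl
    have apB : ∀ t, B t = wdg b p₀ f₂ t + wdg b f₁ e₂ t := fun t => rfl
    have b1 : B r₀ = (-(b p₀ r₀)) • f₂ := by
      rw [apB, wdg_apply, wdg_apply, r₀o.d4, r₀o.d3, r₀o.d2]
      module
    have a1' : A f₂ = r₀ := by
      rw [apA, wdg_apply, wdg_apply, H.c34, hs r₀ f₂, r₀o.d4, H.c44, H.c14]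
      module
    have a2' : A r₀ = (-(b r₀ r₀)) • e₂ := by
      rw [apA, wdg_apply, wdg_apply, r₀o.d3, r₀o.d4, r₀o.d1]
      module
    have b2 : B e₂ = p₀ := by
      rw [apB, wdg_apply, wdg_apply, H.c43, hs p₀ e₂, p₀o.d3, H.c33, H.c23]
      module
    have hxr : (A * B - B * A) r₀ = (-(b p₀ r₀)) • r₀ - (-(b r₀ r₀)) • p₀ := by
      rw [LinearMap.sub_apply, Module.End.mul_apply, Module.End.mul_apply, b1, a2', map_smul,
        map_smul, a1', b2]
    rw [hxr, ((r₀o.smul _).sub (p₀o.smul _)).pr_eq] at h4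
    have h5 := congrArg (fun t => b t t₁) h4
    simp only [map_sub, map_smul, LinearMap.sub_apply, LinearMap.smul_apply, smul_eq_mul, k1, k2,
      map_zero, LinearMap.zero_apply] at h5
    exact hr₀ (aniso G H r₀o (by linarith))
  · have h1 : e₁ ∈ N := by rw [hN]; trivial
    rw [hNmem] at h1
    have h2 := h1.1.d2
    rw [H.c21] at h2
    exact one_ne_zero h2

end W125.DK
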